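import Pool.Agent.Lib.MP_79a223_al.Bwd

/-!
# MP_79a223_al: primitive groups with a regular socle and an affine 2-transitive suborbit
-/

open Equiv Pool.Agent.Lib.MP_79a223_al

namespace Pool.Agent.Results.MP_79a223_al.AffineSuborbit

/-- the primitive groups with a unique minimal normal subgroup which is regular, with a 2-transitive suborbit, and whose
point stabiliser has a nontrivial soluble normal subgroup -/
theorem result (Ω : Type) [Fintype Ω] (G : Subgroup (Perm Ω)) :
    (MulAction.IsPreprimitive G Ω ∧ RegularUniqueMinimalNormal G ∧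
      ∃ α : Ω, TwoTransitiveSuborbit G α ∧ HasSolubleNormal (MulAction.stabilizer G α)) ↔
    ∃ (D : Type) (_ : Fintype D) (H : Subgroup (Perm D)) (p : ℕ), p.Prime ∧ ¬ p ∣ Fintype.card D ∧
      TwoTransitive H ∧ HasSolubleNormal H ∧
      ∃ e : Ω ≃ Quo D p, ∀ g : Perm Ω, g ∈ G ↔ ∃ s ∈ H, ∃ w : Quo D p, ∀ x, e (g x) = act p s (e x) + w :=
  ⟨fun ⟨h1, h2, α, h3, h4⟩ => forward G h1 h2 α h3 h4, fun h => backward G h⟩

end Pool.Agent.Results.MP_79a223_al.AffineSuborbit
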