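import Pool.Agent.Lib.MP_79a223_al.FM.FI2
import Pool.Agent.Lib.MP_79a223_al.FM.FI3
import Pool.Agent.Lib.MP_79a223_al.FM.DIF
import Pool.Agent.Lib.MP_79a223_al.FM.PGF
import Pool.Agent.Lib.MP_79a223_al.FM.DUA
import Pool.Agent.Lib.MP_79a223_al.FM.ALT
import Pool.Agent.Lib.MP_79a223_al.FM.NIL
import Pool.Agent.Lib.MP_79a223_al.FM.SWP
import Pool.Agent.Lib.MP_79a223_al.FM.TRV
import Pool.Agent.Lib.MP_79a223_al.FM.SYM
import Pool.Agent.Lib.MP_79a223_al.FM.OPP
import Pool.Agent.Lib.MP_79a223_al.FM.PRO
import Pool.Agent.Lib.MP_79a223_al.FM.PRL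
import Pool.Agent.Lib.MP_79a223_al.FM.PDA
import Pool.Agent.Lib.MP_79a223_al.FM.PDB
import Pool.Agent.Lib.MP_79a223_al.FM.PDC
import Pool.Agent.Lib.MP_79a223_al.FM.PDG
import Pool.Agent.Lib.MP_79a223_al.FM.LIN
import Pool.Agent.Lib.MP_79a223_al.FM.FWD
import Pool.Agent.Lib.MP_79a223_al.FM.BWD
import Pool.Agent.Lib.MP_79a223_al.FM.AFF
import Pool.Agent.Lib.MP_79a223_al.FM.SPO
import Pool.Agent.Lib.MP_79a223_al.FM.SPA
import Pool.Agent.Lib.MP_79a223_al.FM.SPT
import Pool.Agent.Lib.MP_79a223_al.FM.SPB
import Pool.Agent.Lib.MP_79a223_al.FM.SPC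
import Pool.Agent.Lib.MP_79a223_al.FM.SPD
import Pool.Agent.Lib.MP_79a223_al.FM.SPE
import Pool.Agent.Lib.MP_79a223_al.FM.SPF
import Pool.Agent.Lib.MP_79a223_al.FM.TWA
import Pool.Agent.Lib.MP_79a223_al.FM.TWB
import Pool.Agent.Lib.MP_79a223_al.FM.IRB
import Pool.Agent.Lib.MP_79a223_al.FM.IRA
import Pool.Agent.Lib.MP_79a223_al.FM.SUB
import Pool.Agent.Lib.MP_79a223_al.FM.INN
import Pool.Agent.Lib.MP_79a223_al.FM.NRA
import Pool.Agent.Lib.MP_79a223_al.FM.TWN
import Pool.Agent.Lib.MP_79a223_al.FM.TWF
import Pool.Agent.Lib.MP_79a223_al.FM.CRD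
import Pool.Agent.Lib.MP_79a223_al.FM.TRE
import Pool.Agent.Lib.MP_79a223_al.FM.HEC
import Pool.Agent.Lib.MP_79a223_al.FM.LCK
import Pool.Agent.Lib.MP_79a223_al.FM.L11
import Pool.Agent.Lib.MP_79a223_al.FM.M11
import Pool.Agent.Lib.MP_79a223_al.FM.A7
import Pool.Agent.Lib.MP_79a223_al.FM.M22
import Pool.Agent.Lib.MP_79a223_al.FM.M23
import Pool.Agent.Lib.MP_79a223_al.FM.HS
import Pool.Agent.Lib.MP_79a223_al.FM.CO3

/-!
# MP_79a223_al: primitive groups with a regular socle and a 2-transitive suborbit

The classification of the primitive groups with a unique minimal normal subgroup, which is regular, and a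
2-transitive suborbit, for all the finite 2-transitive groups of the list `Complete` (by the
classification of the finite simple groups these are all of them).
-/

open Equiv Pool.Agent.Lib.MP_79a223_al Pool.Agent.Lib.MP_79a223_al.FM

namespace Pool.Agent.Results.MP_79a223_al.AllSuborbits

/-- Let `H` be a 2-transitive group of permutations of a finite set `D` in the list `Complete` (the infinite
families and the sporadic groups), with the subspaces `M p` of `F_p^D`.  A group `G` of permutations of a
finite set `X` is primitive with a unique minimal normal subgroup, which is regular, and with a point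
stabiliser which acts on one of its orbits (not containing the point) as `H` acts on `D`, if and only if
either for some prime `p` the space `M p` contains a function with nonzero sum and, after a bijection from
`X` to `V = F_p^D / M p`, `G` is the group of all maps `v ↦ s v + w`, `s ∈ H`, `w ∈ V`, or `G` is a twisted
wreath product as in `IsTW`. -/
theorem result (X D : Type) [Finite X] [Fintype D] (H : Subgroup (Perm D))
    (M : ∀ p : ℕ, Submodule (ZMod p) (D → ZMod p)) (h2 : TwoTransitive H) (hM : Complete D H M)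
    (G : Subgroup (Perm X)) :
    (∃ (N : Subgroup G) (α : X) (S : Set X), RegularSocle G N ∧ α ∉ S ∧ ActsAs G α S H) ↔
      (∃ p : ℕ, p.Prime ∧ (∃ f ∈ M p, ∑ x, f x ≠ 0) ∧ IsAff G H p (M p)) ∨ IsTW G H := by
  have hPRO := specPRO specDIF specOPP
  have hPRL := specPRL specDIF
  have hPDA := specPDA specPGF
  have hFWD := specFWD (specLIN specDUA)
  have hBWD := specBWD specDUA
  have hSWP := specSWP specDIF
  have hFIN : SpecFIN := specFIN specDUA (specALT specDIF) (specNIL specDIF specPGF) hSWP
    (specTRV specDIF) specSYM hPRO hPRL hPDA specPDB specPDC specPDG hFWD hBWD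
  have hSPF : SpecSPF := specSPF (specSPA specPGF) (specSPB hPDA specPDB specPDC specSPT) specSPC
    specSPD specSPE
  have hTWN := specTWN specIRB specSUB specINN specNRA
  have hTWF := specTWF specTWA specTWB specIRA
  have hFI2 := specFI2 hFIN specDUA hFWD hBWD (specTRV specDIF) (specAFF specPGF) specSPO hSPF hTWN hTWF
  exact specFI3 specDUA hFWD hBWD hTWN hTWF hFI2 (specL11 specCRD specTRE specHEC specLCK hSWP)
    (specM11 specCRD specTRE specHEC specLCK hSWP) (specA7 specCRD specTRE specHEC specLCK hSWP)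
    (specM22 specCRD specTRE specHEC specLCK hSWP) (specM23 specCRD specTRE specHEC specLCK hSWP)
    (specHS specCRD specTRE specHEC specLCK hSWP) (specCO3 specCRD specTRE specHEC specLCK hSWP)
    X D H M h2 hM G

end Pool.Agent.Results.MP_79a223_al.AllSuborbits
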