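import Pool.Agent.Lib.MP_79a223_al.Bwd2

/-!
# MP_79a223_al: primitive groups with a 2-transitive suborbit and a self-dual regular socle
-/

open Equiv Pool.Agent.Lib.MP_79a223_al

namespace Pool.Agent.Results.MP_79a223_al.SelfDualSocle

/-- the primitive groups with a unique minimal normal subgroup `N` which is regular, with a 2-transitive suborbit, and
with a nontrivial bimultiplicative map on `N × N` invariant under a point stabiliser -/
theorem result (Ω : Type) [Fintype Ω] (G : Subgroup (Perm Ω)) :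
    (∃ (N : Subgroup G) (α : Ω), RegularSocle G N ∧ (∃ S, IsTwoTransitiveSuborbit G α S) ∧ HasInvariantForm G N α) ↔
    ∃ (D : Type) (_ : Fintype D) (H : Subgroup (Perm D)) (p : ℕ), p.Prime ∧ ¬ p ∣ Fintype.card D ∧
        TwoTransitive H ∧ QuoIrreducible H p ∧
        ∃ e : Ω ≃ Quo D p, ∀ g : Perm Ω, g ∈ G ↔ ∃ s ∈ H, ∃ w : Quo D p, ∀ x, e (g x) = act p s (e x) + w := by
  constructor
  · rintro ⟨N, α, hN, ⟨S, hS⟩, hform⟩
    obtain ⟨D, iD, H, q, hq, hqD, -, h2, hqi, he⟩ := forward2 G N hN α S hS (Or.inr (Or.inl hform))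
    exact ⟨D, iD, H, q, hq, hqD, h2, hqi, he⟩
  · rintro ⟨D, iD, H, q, hq, hqD, h2, hqi, he⟩
    obtain ⟨N, α, hN, ⟨S, hS, -⟩, hform⟩ := backward2 G _ ⟨D, iD, H, q, hq, hqD, rfl, h2, hqi, he⟩
    exact ⟨N, α, hN, ⟨S, hS⟩, hform⟩

end Pool.Agent.Results.MP_79a223_al.SelfDualSocle
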