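import Pool.Agent.Lib.MP_79a223_al.Bwd2

/-!
# MP_79a223_al: primitive groups with a regular socle and a short 2-transitive suborbit
-/

open Equiv Pool.Agent.Lib.MP_79a223_al

namespace Pool.Agent.Results.MP_79a223_al.ShortSuborbit

/-- the primitive groups of degree `p ^ m` with a unique minimal normal subgroup which is regular and with a 2-transitive
suborbit of length at most `2 m` -/
theorem result (Ω : Type) [Fintype Ω] (G : Subgroup (Perm Ω)) :
    (∃ (N : Subgroup G) (α : Ω) (S : Set Ω) (p m : ℕ), RegularSocle G N ∧ IsTwoTransitiveSuborbit G α S ∧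
        p.Prime ∧ Fintype.card Ω = p ^ m ∧ Nat.card S ≤ 2 * m) ↔
    ∃ (D : Type) (_ : Fintype D) (H : Subgroup (Perm D)) (p : ℕ), p.Prime ∧ ¬ p ∣ Fintype.card D ∧
        TwoTransitive H ∧ QuoIrreducible H p ∧
        ∃ e : Ω ≃ Quo D p, ∀ g : Perm Ω, g ∈ G ↔ ∃ s ∈ H, ∃ w : Quo D p, ∀ x, e (g x) = act p s (e x) + w := by
  constructor
  · rintro ⟨N, α, S, p, m, hN, hS, hp, hcard, hm⟩
    obtain ⟨D, iD, H, q, hq, hqD, -, h2, hqi, he⟩ :=
      forward2 G N hN α S hS (Or.inr (Or.inr ⟨p, m, hp, by rw [Nat.card_eq_fintype_card, hcard], hm⟩))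
    exact ⟨D, iD, H, q, hq, hqD, h2, hqi, he⟩
  · rintro ⟨D, iD, H, q, hq, hqD, h2, hqi, he⟩
    obtain ⟨N, α, hN, ⟨S, hS, -⟩, hform⟩ := backward2 G _ ⟨D, iD, H, q, hq, hqD, rfl, h2, hqi, he⟩
    obtain ⟨p, hp, -, hcard⟩ := card_of_heartData G _ (forward2 G N hN α S hS (Or.inr (Or.inl hform)))
    refine ⟨N, α, S, p, Nat.card S - 1, hN, hS, hp, by rw [← Nat.card_eq_fintype_card, hcard], ?_⟩
    obtain ⟨-, ⟨x, hx, y, hy, hxy⟩, -, -⟩ := hS
    have : Nontrivial S := ⟨⟨x, hx⟩, ⟨y, hy⟩, fun h => hxy (congrArg Subtype.val h)⟩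
    have h3 : 1 < Nat.card S := Finite.one_lt_card
    omega

end Pool.Agent.Results.MP_79a223_al.ShortSuborbit
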